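import Pool.Agent.Helper893.Tree
import Pool.Agent.Helper893.Plichko

set_option autoImplicit false

/-!
# Subspaces of spaces containing an uncountable `ℓ₁(Γ)` which are not complemented in any
Plichko space

The starting result of this problem gives a closed subspace of `ℓ₁(Γ)` without a norming M-basis.
Here the subspace `Z` is found in every Banach space `E` which contains an isomorphic copy of
`ℓ₁(Γ)`, has density character at least `|Γ|`, and no Banach space `X` whatsoever in which `Z` is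
(isomorphic to) a complemented subspace admits a norming M-basis. In fact such an `X` is not a
Plichko space, and does not have even the weak form of the separable complementation property.
-/

namespace Pool.Agent.Results.MP_a4e3f3_an.NotComplementedInPlichko

open Pool.Agent.Helper893 Cardinal

universe u v w t

/-- `(e, φ)` is an M-basis of the normed space `X`: a biorthogonal system such that the vectors
`e a` span a dense subspace of `X` and the functionals `φ a` separate the points of `X`. -/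
structure IsMBasis (𝕜 : Type) [RCLike 𝕜] {X : Type v} [NormedAddCommGroup X] [NormedSpace 𝕜 X]
    {A : Type w} (e : A → X) (φ : A → (X →L[𝕜] 𝕜)) : Prop where
  apply_self : ∀ a, φ a (e a) = 1
  apply_ne : ∀ a b, a ≠ b → φ a (e b) = 0
  dense_span : Dense (Submodule.span 𝕜 (Set.range e) : Set X)
  separates : ∀ x : X, (∀ a, φ a x = 0) → x = 0

/-- the functionals `φ a` are `c`-norming: for every `x`, the supremum of `‖ψ x‖` over the `ψ` of
norm at most one in the linear span of the `φ a` is at least `c * ‖x‖`. -/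
def IsNorming (𝕜 : Type) [RCLike 𝕜] {X : Type v} [NormedAddCommGroup X] [NormedSpace 𝕜 X]
    {A : Type w} (c : ℝ) (φ : A → (X →L[𝕜] 𝕜)) : Prop :=
  ∀ x : X, c * ‖x‖ ≤ sSup {t : ℝ | ∃ ψ ∈ Submodule.span 𝕜 (Set.range φ), ‖ψ‖ ≤ 1 ∧ t = ‖ψ x‖}

/-- the normed space `X` admits a norming M-basis: an M-basis (indexed by some type) which is
`c`-norming for some `c > 0`. -/
def AdmitsNormingMBasis (𝕜 : Type) [RCLike 𝕜] (X : Type v) [NormedAddCommGroup X]
    [NormedSpace 𝕜 X] : Prop :=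
  ∃ (A : Type w) (e : A → X) (φ : A → (X →L[𝕜] 𝕜)),
    IsMBasis 𝕜 e φ ∧ ∃ c : ℝ, 0 < c ∧ IsNorming 𝕜 c φ

/-- `X` is a Plichko space: there are a set `M` which spans a dense subspace of `X` and a linear
space `N` of functionals, `r`-norming for some `r > 0`, such that every functional in `N` vanishes
at all but countably many elements of `M`. -/
def IsPlichko (𝕜 : Type) [RCLike 𝕜] (X : Type v) [NormedAddCommGroup X]
    [NormedSpace 𝕜 X] : Prop :=
  ∃ (M : Set X) (N : Submodule 𝕜 (X →L[𝕜] 𝕜)) (r : ℝ),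
    Dense (Submodule.span 𝕜 M : Set X) ∧ 0 < r ∧
    (∀ x : X, r * ‖x‖ ≤ sSup {t : ℝ | ∃ ψ ∈ N, ‖ψ‖ ≤ 1 ∧ t = ‖ψ x‖}) ∧
    ∀ f ∈ N, {m | m ∈ M ∧ f m ≠ 0}.Countable

/-- The weak separable complementation property: for every countable set `S` in `X` some bounded
linear operator on `X` (not necessarily a projection) with separable range fixes all elements of
`S`. -/
def HasWeakSCP (𝕜 : Type) [RCLike 𝕜] (X : Type v) [NormedAddCommGroup X]
    [NormedSpace 𝕜 X] : Prop :=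
  ∀ S : Set X, S.Countable → ∃ R : X →L[𝕜] X,
    TopologicalSpace.IsSeparable (Set.range R) ∧ ∀ s ∈ S, R s = s

/-- `Z` is isomorphic to a complemented subspace of `X`. -/
def ComplementedIn (𝕜 : Type) [RCLike 𝕜] (Z : Type w) [NormedAddCommGroup Z]
    [NormedSpace 𝕜 Z] (X : Type v) [NormedAddCommGroup X] [NormedSpace 𝕜 X] : Prop :=
  ∃ (J : Z →L[𝕜] X) (P : X →L[𝕜] Z), ∀ z, P (J z) = z

section general

variable {𝕜 : Type} [RCLike 𝕜]

theorem ComplementedIn.refl (Z : Type w) [NormedAddCommGroup Z] [NormedSpace 𝕜 Z] :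
    ComplementedIn 𝕜 Z Z :=
  ⟨ContinuousLinearMap.id 𝕜 Z, ContinuousLinearMap.id 𝕜 Z, fun _ => rfl⟩

theorem ComplementedIn.trans {Z : Type w} [NormedAddCommGroup Z] [NormedSpace 𝕜 Z]
    {Y : Type u} [NormedAddCommGroup Y] [NormedSpace 𝕜 Y]
    {X : Type v} [NormedAddCommGroup X] [NormedSpace 𝕜 X] (h : ComplementedIn 𝕜 Z Y)
    (h' : ComplementedIn 𝕜 Y X) : ComplementedIn 𝕜 Z X := by
  obtain ⟨J, P, hJ⟩ := h
  obtain ⟨J', P', hJ'⟩ := h'
  exact ⟨J'.comp J, P.comp P', fun z => by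
    change P (P' (J' (J z))) = z
    rw [hJ', hJ]⟩

/-- a norming M-basis makes the space a Plichko space -/
theorem plichko_of_norming {X : Type v} [NormedAddCommGroup X] [NormedSpace 𝕜 X]
    (h : AdmitsNormingMBasis.{v, w} 𝕜 X) : IsPlichko 𝕜 X := by
  obtain ⟨A, e, φ, h, c, hc, hn⟩ := h
  refine ⟨Set.range e, Submodule.span 𝕜 (Set.range φ), c, h.dense_span, hc, hn, ?_⟩
  intro f hf
  refine Set.Finite.countable ?_
  induction hf using Submodule.span_induction with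
  | mem x hx =>
    obtain ⟨a, rfl⟩ := hx
    refine (Set.finite_singleton (e a)).subset ?_
    rintro _ ⟨⟨b, rfl⟩, hb⟩
    by_contra hcon
    exact hb (h.apply_ne a b (fun hab => hcon (by rw [hab]; rfl)))
  | zero => simp
  | add f g _ _ hf hg =>
    refine (hf.union hg).subset ?_
    rintro m ⟨hm, hm'⟩
    by_cases h1 : f m = 0
    · right
      refine ⟨hm, fun h2 => hm' ?_⟩
      change f m + g m = 0
      rw [h1, h2, add_zero]
    · exact Or.inl ⟨hm, h1⟩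
  | smul t f _ hf =>
    refine hf.subset ?_
    rintro m ⟨hm, hm'⟩
    refine ⟨hm, fun h2 => hm' ?_⟩
    change t • f m = 0
    rw [h2, smul_zero]

/-- Plichko spaces have the separable complementation property -/
theorem weakSCP_of_plichko {X : Type v} [NormedAddCommGroup X] [NormedSpace 𝕜 X]
    [CompleteSpace X] (h : IsPlichko 𝕜 X) : HasWeakSCP 𝕜 X := by
  obtain ⟨M, N, r, hM, hr, hN, hcount⟩ := h
  intro S hS
  have hnorm : ∀ x : X, x ≠ 0 → ∃ f ∈ (N : Set (X →L[𝕜] 𝕜)),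
      ‖f‖ ≤ 1 ∧ (r / 2) * ‖x‖ ≤ ‖f x‖ := by
    intro x hx
    have hx' : 0 < ‖x‖ := norm_pos_iff.mpr hx
    have h1 := hN x
    have h2 : (r / 2) * ‖x‖ < sSup {t : ℝ | ∃ ψ ∈ N, ‖ψ‖ ≤ 1 ∧ t = ‖ψ x‖} := by
      have := mul_pos hr hx'
      linarith
    have h3 : {t : ℝ | ∃ ψ ∈ N, ‖ψ‖ ≤ 1 ∧ t = ‖ψ x‖}.Nonempty :=
      ⟨0, 0, Submodule.zero_mem _, by simp, by simp⟩
    obtain ⟨t, ⟨ψ, hψ1, hψ2, rfl⟩, ht⟩ := exists_lt_of_lt_csSup h3 h2
    exact ⟨ψ, hψ1, hψ2, ht.le⟩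
  obtain ⟨R, C, B, hB, hR, hRB, hRB', hSB⟩ := Plichko.exists_proj (𝕜 := 𝕜) M hM
    (N : Set (X →L[𝕜] 𝕜)) (r / 2) (by positivity) hnorm hcount S hS
  refine ⟨R.mkContinuous C hR, ?_, fun s hs => hRB' s (hSB hs)⟩
  have h1 : TopologicalSpace.IsSeparable ((Submodule.span 𝕜 B : Submodule 𝕜 X) : Set X) :=
    hB.isSeparable.span
  refine h1.closure.mono ?_
  rintro _ ⟨x, rfl⟩
  have := hRB x
  rw [Plichko.CS] at this
  exact this

/-- the basic example: no operator with separable range on a space containing a complemented copy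
of the example fixes the countable set -/
theorem not_weakSCP {I : Type} (ι : I → Set ℕ) (hι : Function.Injective ι) (hI : ¬ Countable I)
    {X : Type v} [NormedAddCommGroup X] [NormedSpace 𝕜 X]
    (h : ComplementedIn 𝕜 (L1Sub.Z 𝕜 ι) X) : ¬ HasWeakSCP 𝕜 X := by
  obtain ⟨J, P, hJ⟩ := h
  intro hX
  obtain ⟨R, ⟨A, hA, hRA⟩, hS⟩ := hX (J '' L1Sub.SS 𝕜 ι) ((L1Sub.SS_countable 𝕜 ι).image J)
  let R' : L1Sub.Z 𝕜 ι →L[𝕜] L1Sub.Z 𝕜 ι := P.comp (R.comp J)
  have hR' : ∀ z, R' z = P (R (J z)) := fun z => rfl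
  refine L1Sub.main_theorem ι hι hI (R' : L1Sub.Z 𝕜 ι →ₗ[𝕜] L1Sub.Z 𝕜 ι) ‖R'‖
    (fun z => R'.le_opNorm z) (P '' A) (hA.image P) ?_ ?_
  · intro z
    have h1 : R (J z) ∈ closure A := hRA ⟨J z, rfl⟩
    have h2 : P (R (J z)) ∈ closure (P '' A) :=
      image_closure_subset_closure_image P.continuous ⟨_, h1, rfl⟩
    have h3 : closure (P '' A) ⊆
        ((Submodule.span 𝕜 (P '' A)).topologicalClosure : Set (L1Sub.Z 𝕜 ι)) := by
      rw [Submodule.topologicalClosure_coe]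
      exact closure_mono Submodule.subset_span
    exact h3 h2
  · intro z hz
    change P (R (J z)) = z
    rw [hS (J z) ⟨z, hz, rfl⟩, hJ]

/-- operators on `ℓ₁` which agree on the unit vectors -/
theorem L1_ext {Γ : Type v} {W : Type w} [NormedAddCommGroup W] [NormedSpace 𝕜 W]
    (S T : L1Sub.L1 𝕜 Γ →L[𝕜] W) (h : ∀ γ, S (L1Sub.ee 𝕜 γ) = T (L1Sub.ee 𝕜 γ))
    (f : L1Sub.L1 𝕜 Γ) : S f = T f := by
  have h1 := L1Sub.hasSum_map S f
  have h2 := L1Sub.hasSum_map T f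
  simp only [h] at h1
  exact h1.unique h2

/-- different unit vectors have distance at least one -/
theorem sep_ee {Γ : Type v} {a b : Γ} (hne : a ≠ b) :
    1 ≤ ‖(L1Sub.ee 𝕜 a - L1Sub.ee 𝕜 b : L1Sub.L1 𝕜 Γ)‖ := by
  have e3 : (L1Sub.ee 𝕜 a - L1Sub.ee 𝕜 b : L1Sub.L1 𝕜 Γ) a = 1 := by
    change (L1Sub.ee 𝕜 a : L1Sub.L1 𝕜 Γ) a - (L1Sub.ee 𝕜 b : L1Sub.L1 𝕜 Γ) a = 1
    rw [L1Sub.ee_self, L1Sub.ee_ne hne, sub_zero]
  have e4 := lp.norm_apply_le_norm (p := 1) one_ne_zero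
    (L1Sub.ee 𝕜 a - L1Sub.ee 𝕜 b : L1Sub.L1 𝕜 Γ) a
  rw [e3, norm_one] at e4
  exact e4

/-- the image under `T` of the preimage of `Z₀` under `P` -/
def Sub (𝕜 : Type) [RCLike 𝕜] {A : Type t} {B : Type v} {E : Type u} [NormedAddCommGroup A]
    [NormedSpace 𝕜 A] [NormedAddCommGroup B] [NormedSpace 𝕜 B] [NormedAddCommGroup E]
    [NormedSpace 𝕜 E] (Z₀ : Submodule 𝕜 A) (P : B →L[𝕜] A) (T : B →L[𝕜] E) : Submodule 𝕜 E :=
  (Z₀.comap (P : B →ₗ[𝕜] A)).map (T : B →ₗ[𝕜] E)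

section abs

variable {A : Type t} {B : Type v} {E : Type u} [NormedAddCommGroup A]
    [NormedSpace 𝕜 A] [NormedAddCommGroup B] [NormedSpace 𝕜 B] [NormedAddCommGroup E]
    [NormedSpace 𝕜 E] (Z₀ : Submodule 𝕜 A) (P : B →L[𝕜] A) (T : B →L[𝕜] E) (c : ℝ)
    (hc : 0 < c) (hT : ∀ f, c * ‖f‖ ≤ ‖T f‖)

include hc hT in
theorem T_inj : Function.Injective (T : B →ₗ[𝕜] E) := by
  rw [← LinearMap.ker_eq_bot, LinearMap.ker_eq_bot']
  intro f hf
  have h := hT f
  have hf' : T f = 0 := hf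
  rw [hf', norm_zero] at h
  have : ‖f‖ ≤ 0 := by
    by_contra hcon
    push Not at hcon
    have := mul_pos hc hcon
    linarith
  exact norm_le_zero_iff.mp this

include hc hT in
theorem closed_Sub [CompleteSpace B] (hZ : IsClosed (Z₀ : Set A)) :
    IsClosed (Sub 𝕜 Z₀ P T : Set E) := by
  have hanti : AntilipschitzWith ⟨c⁻¹, (inv_pos.mpr hc).le⟩ T := by
    refine T.antilipschitz_of_bound fun f => ?_
    change ‖f‖ ≤ c⁻¹ * ‖T f‖
    rw [le_inv_mul_iff₀ hc]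
    exact hT f
  have hVc : IsClosed ((Z₀.comap (P : B →ₗ[𝕜] A) : Submodule 𝕜 B) : Set B) :=
    hZ.preimage P.continuous
  rw [Sub, Submodule.map_coe]
  exact (hanti.isClosedEmbedding T.uniformContinuous).isClosedMap _ hVc

include hc hT in
theorem compl_Sub (J : A →L[𝕜] B) (hPJ : ∀ f, P (J f) = f) :
    ComplementedIn 𝕜 Z₀ (Sub 𝕜 Z₀ P T) := by
  have hinj := T_inj T c hc hT
  have hex : ∀ y : Sub 𝕜 Z₀ P T, ∃ f : B, P f ∈ Z₀ ∧ T f = (y : E) := fun y => y.2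
  choose g hg hTg using hex
  have hgadd : ∀ x y, g (x + y) = g x + g y := fun x y => hinj (by
    change T (g (x + y)) = T (g x + g y)
    rw [map_add, hTg, hTg, hTg]; rfl)
  have hgsmul : ∀ (a : 𝕜) x, g (a • x) = a • g x := fun a x => hinj (by
    change T (g (a • x)) = T (a • g x)
    rw [map_smul, hTg, hTg]; rfl)
  have hgn : ∀ y, ‖g y‖ ≤ c⁻¹ * ‖y‖ := by
    intro y
    rw [le_inv_mul_iff₀ hc]
    have h := hT (g y)
    rw [hTg] at h
    exact h
  let P1 : Sub 𝕜 Z₀ P T →ₗ[𝕜] Z₀ :=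
    { toFun := fun y => ⟨P (g y), hg y⟩
      map_add' := fun x y => Subtype.ext (by
        change P (g (x + y)) = P (g x) + P (g y)
        rw [hgadd, map_add])
      map_smul' := fun a x => Subtype.ext (by
        change P (g (a • x)) = a • P (g x)
        rw [hgsmul, map_smul]) }
  have hmem : ∀ z : Z₀, T (J (z : A)) ∈ Sub 𝕜 Z₀ P T := fun z =>
    ⟨J z, (by change P (J z) ∈ Z₀; rw [hPJ]; exact z.2), rfl⟩
  let J1 : Z₀ →ₗ[𝕜] Sub 𝕜 Z₀ P T :=
    { toFun := fun z => ⟨T (J (z : A)), hmem z⟩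
      map_add' := fun x y => Subtype.ext (by
        change T (J ((x : A) + y)) = T (J x) + T (J y)
        rw [map_add, map_add])
      map_smul' := fun a x => Subtype.ext (by
        change T (J (a • (x : A))) = a • T (J x)
        rw [map_smul, map_smul]) }
  refine ⟨J1.mkContinuous (‖T‖ * ‖J‖) ?_, P1.mkContinuous (‖P‖ * c⁻¹) ?_, fun z => ?_⟩
  · intro z
    change ‖T (J (z : A))‖ ≤ ‖T‖ * ‖J‖ * ‖(z : A)‖
    calc ‖T (J (z : A))‖ ≤ ‖T‖ * ‖J (z : A)‖ := T.le_opNorm _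
      _ ≤ ‖T‖ * (‖J‖ * ‖(z : A)‖) :=
        mul_le_mul_of_nonneg_left (J.le_opNorm _) (norm_nonneg _)
      _ = _ := by ring
  · intro y
    change ‖P (g y)‖ ≤ ‖P‖ * c⁻¹ * ‖y‖
    calc ‖P (g y)‖ ≤ ‖P‖ * ‖g y‖ := P.le_opNorm _
      _ ≤ ‖P‖ * (c⁻¹ * ‖y‖) := mul_le_mul_of_nonneg_left (hgn y) (norm_nonneg _)
      _ = _ := by ring
  · apply Subtype.ext
    change P (g ⟨T (J (z : A)), hmem z⟩) = z
    have h : g ⟨T (J (z : A)), hmem z⟩ = J z := hinj (hTg _)
    rw [h, hPJ]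

include hc hT in
theorem dense_Sub {Γ : Type w} (x : Γ → B) (hx : ∀ γ, P (x γ) = 0)
    (hsep : ∀ a b, a ≠ b → 1 ≤ ‖x a - x b‖) (D : Set (Sub 𝕜 Z₀ P T)) (hD : Dense D) :
    Nonempty (Γ ↪ D) := by
  have hmem : ∀ γ, T (x γ) ∈ Sub 𝕜 Z₀ P T := fun γ =>
    ⟨x γ, (by change P (x γ) ∈ Z₀; rw [hx]; exact Z₀.zero_mem), rfl⟩
  have hch : ∀ γ, ∃ d ∈ D, dist (⟨T (x γ), hmem γ⟩ : Sub 𝕜 Z₀ P T) d < c / 2 := fun γ =>
    hD.exists_dist_lt _ (by positivity)
  choose d hdD hd using hch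
  refine ⟨⟨fun γ => ⟨d γ, hdD γ⟩, fun a b hab => ?_⟩⟩
  by_contra hne
  have hab' : d a = d b := congrArg Subtype.val hab
  have h6 := dist_triangle_right (⟨T (x a), hmem a⟩ : Sub 𝕜 Z₀ P T) ⟨T (x b), hmem b⟩ (d a)
  have h7 := hd a
  have h8 := hd b
  rw [← hab'] at h8
  have h9 : dist (⟨T (x a), hmem a⟩ : Sub 𝕜 Z₀ P T) ⟨T (x b), hmem b⟩ = ‖T (x a - x b)‖ := by
    rw [Subtype.dist_eq, dist_eq_norm, map_sub]
  have h10 := hT (x a - x b)
  have h11 := hsep a b hne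
  nlinarith

end abs

end general

/-- **Main theorem.** Let `Γ` be an uncountable set and `E` a Banach space (over `ℝ` or `ℂ`) which
contains an isomorphic copy of `ℓ₁(Γ)` (the image of the operator `T`). Then the copy contains a
closed subspace `Z` of density character at least `|Γ|` such that no Banach space `X` in which `Z`
is complemented (up to isomorphism) admits a norming M-basis, or is a Plichko space, or has the
weak separable complementation property. -/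
theorem main (𝕜 : Type) [RCLike 𝕜] (Γ : Type v) [Uncountable Γ] (E : Type u)
    [NormedAddCommGroup E] [NormedSpace 𝕜 E] (T : lp (fun _ : Γ => 𝕜) 1 →L[𝕜] E) (c : ℝ)
    (hc : 0 < c) (hT : ∀ f, c * ‖f‖ ≤ ‖T f‖) :
    ∃ Z : Submodule 𝕜 E, IsClosed (Z : Set E) ∧ (Z : Set E) ⊆ Set.range T ∧
      (∀ D : Set Z, Dense D → Nonempty (Γ ↪ D)) ∧
      ∀ (X : Type w) [NormedAddCommGroup X] [NormedSpace 𝕜 X] [CompleteSpace X],
        ComplementedIn 𝕜 Z X →
          ¬ HasWeakSCP 𝕜 X ∧ ¬ IsPlichko 𝕜 X ∧ ¬ AdmitsNormingMBasis.{w, t} 𝕜 X := by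
  -- an index set of size aleph one
  have h1 : ℵ₁ ≤ #(Set ℕ) := by
    rw [Cardinal.mk_set, Cardinal.mk_nat]
    exact Cardinal.aleph_one_le_continuum
  obtain ⟨S, hS⟩ := Cardinal.le_mk_iff_exists_set.mp h1
  have hunc : ¬ Countable S := by
    intro h
    have h2 := Cardinal.mk_le_aleph0_iff.mpr h
    rw [hS] at h2
    exact absurd h2 (not_le.mpr (Cardinal.aleph0_lt_aleph_one))
  have hcard : #(L1Sub.Gam S) ≤ ℵ₁ := by
    rw [Cardinal.mk_sum, Cardinal.lift_id, Cardinal.lift_id]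
    refine Cardinal.add_le_of_le (Cardinal.aleph0_le_aleph 1) ?_ ?_
    · exact (Cardinal.mk_le_aleph0_iff.mpr inferInstance).trans (Cardinal.aleph0_le_aleph 1)
    · rw [Cardinal.mk_prod, Cardinal.lift_id, Cardinal.lift_id, hS]
      refine (mul_le_mul' le_rfl (Cardinal.mk_le_aleph0_iff.mpr (inferInstance :
        Countable (List Bool)))).trans ?_
      refine (mul_le_mul' le_rfl (Cardinal.aleph0_le_aleph 1)).trans ?_
      rw [Cardinal.mul_eq_self (Cardinal.aleph0_le_aleph 1)]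
  have h3 : ℵ₁ ≤ #Γ := by
    rw [← Cardinal.succ_aleph0]
    exact Order.succ_le_of_lt (Cardinal.aleph0_lt_mk_iff.mpr inferInstance)
  have h4 : Cardinal.lift.{v} #(L1Sub.Gam S) ≤ Cardinal.lift.{0} #Γ := by
    refine (Cardinal.lift_le.mpr hcard).trans ?_
    rw [Cardinal.lift_aleph, Ordinal.lift_one, Cardinal.lift_uzero]
    exact h3
  have h5 : Cardinal.lift.{v} #(L1Sub.Gam S ⊕ Γ) ≤ Cardinal.lift.{v} #Γ := by
    have h0 : ℵ₀ ≤ #Γ := (Cardinal.aleph0_le_aleph 1).trans h3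
    rw [Cardinal.mk_sum, Cardinal.lift_le]
    refine Cardinal.add_le_of_le h0 ?_ ?_
    · rw [Cardinal.lift_uzero] at h4
      exact h4
    · rw [Cardinal.lift_uzero]
  obtain ⟨j⟩ := Cardinal.lift_mk_le'.mp h5
  -- the maps between the two `ℓ₁` spaces
  have hjl : ∀ g g' : L1Sub.Gam S, j (Sum.inl g) = j (Sum.inl g') → g = g' := fun g g' h =>
    Sum.inl_injective (j.injective h)
  obtain ⟨J, hJ⟩ := L1Sub.exists_lift (𝕜 := 𝕜) (W := L1Sub.L1 𝕜 Γ)
    (fun g : L1Sub.Gam S => L1Sub.ee 𝕜 (j (Sum.inl g))) 1 (fun g => (L1Sub.norm_ee _).le)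
  obtain ⟨P, hP⟩ := L1Sub.exists_lift (𝕜 := 𝕜) (W := L1Sub.L1 𝕜 (L1Sub.Gam S))
    (fun γ : Γ => open Classical in if h : ∃ g, j (Sum.inl g) = γ then L1Sub.ee 𝕜 h.choose else 0)
    1 (fun γ => by
      split_ifs with h
      · exact (L1Sub.norm_ee _).le
      · rw [norm_zero]; exact zero_le_one)
  have hPl : ∀ g, P (L1Sub.ee 𝕜 (j (Sum.inl g))) = L1Sub.ee 𝕜 g := by
    intro g
    have hex : ∃ g', j (Sum.inl g') = j (Sum.inl g) := ⟨g, rfl⟩
    rw [hP, dif_pos hex, hjl _ _ hex.choose_spec]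
  have hPr : ∀ γ, P (L1Sub.ee 𝕜 (j (Sum.inr γ))) = 0 := by
    intro γ
    have hex : ¬ ∃ g', j (Sum.inl g') = j (Sum.inr γ) := by
      rintro ⟨g, hg⟩
      exact Sum.inl_ne_inr (j.injective hg)
    rw [hP, dif_neg hex]
  have hPJ : ∀ f, P (J f) = f := fun f =>
    L1_ext (P.comp J) (ContinuousLinearMap.id 𝕜 _) (fun g => by
      change P (J (L1Sub.ee 𝕜 g)) = L1Sub.ee 𝕜 g
      rw [hJ, hPl]) f
  refine ⟨Sub 𝕜 (L1Sub.Z 𝕜 (Subtype.val : S → Set ℕ)) P T,
    closed_Sub _ P T c hc hT (L1Sub.isClosed_Z 𝕜 _), ?_, ?_, ?_⟩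
  · rintro _ ⟨f, _, rfl⟩
    exact ⟨f, rfl⟩
  · refine dense_Sub _ P T c hc hT (fun γ : Γ => L1Sub.ee 𝕜 (j (Sum.inr γ))) hPr ?_
    intro a b hab
    have hne : j (Sum.inr a) ≠ j (Sum.inr b) := fun h =>
      hab (Sum.inr_injective (j.injective h))
    exact sep_ee hne
  · intro X _ _ _ hX
    have hn := not_weakSCP (Subtype.val : S → Set ℕ) Subtype.val_injective hunc
      ((compl_Sub _ P T c hc hT J hPJ).trans hX)
    exact ⟨hn, fun h => hn (weakSCP_of_plichko h),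
      fun h => hn (weakSCP_of_plichko (plichko_of_norming h))⟩

/-- **Result.** (1) Full answer to Q1: for every uncountable `Γ` some closed subspace of `ℓ₁(Γ)`
admits no norming M-basis.
(2) The stronger theorem `main`: in every normed space `E` containing an isomorphic copy of
`ℓ₁(Γ)`, `Γ` uncountable, there is such a closed subspace `Z`, contained in the copy and of density
character at least `|Γ|`, and moreover no Banach space `X` in which `Z` is complemented (up to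
isomorphism) admits a norming M-basis, is a Plichko space, or has the weak separable
complementation property. -/
theorem result (𝕜 : Type) [RCLike 𝕜] (Γ : Type v) [Uncountable Γ] :
    (∃ Z : Submodule 𝕜 (lp (fun _ : Γ => 𝕜) 1), IsClosed (Z : Set (lp (fun _ : Γ => 𝕜) 1)) ∧
      ¬ AdmitsNormingMBasis.{v, t} 𝕜 Z) ∧
    ∀ (E : Type u) [NormedAddCommGroup E] [NormedSpace 𝕜 E]
      (T : lp (fun _ : Γ => 𝕜) 1 →L[𝕜] E) (c : ℝ), 0 < c → (∀ f, c * ‖f‖ ≤ ‖T f‖) →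
      ∃ Z : Submodule 𝕜 E, IsClosed (Z : Set E) ∧ (Z : Set E) ⊆ Set.range T ∧
        (∀ D : Set Z, Dense D → Nonempty (Γ ↪ D)) ∧
        ∀ (X : Type w) [NormedAddCommGroup X] [NormedSpace 𝕜 X] [CompleteSpace X],
          ComplementedIn 𝕜 Z X →
            ¬ HasWeakSCP 𝕜 X ∧ ¬ IsPlichko 𝕜 X ∧ ¬ AdmitsNormingMBasis.{w, t} 𝕜 X := by
  refine ⟨?_, fun E _ _ T c hc hT => main.{u, v, w, t} 𝕜 Γ E T c hc hT⟩
  obtain ⟨Z, hZ, _, _, h⟩ := main.{v, v, v, t} 𝕜 Γ (lp (fun _ : Γ => 𝕜) 1)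
    (ContinuousLinearMap.id 𝕜 _) 1 one_pos (fun f => by rw [one_mul]; rfl)
  have : CompleteSpace Z := hZ.completeSpace_coe
  exact ⟨Z, hZ, (h Z (ComplementedIn.refl Z)).2.2⟩

end Pool.Agent.Results.MP_a4e3f3_an.NotComplementedInPlichko
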